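import Pool.Agent.R425.MK.Lim

/-!
# One sequence of radii for countably many thin families of balls
-/

set_option autoImplicit false

namespace Pool.Agent.Helper93.UA

open Filter Topology MeasureTheory

/-- For countably many families `Bad j n` (`n` the degree) for which the sums of `h ^ (-s n * t j)`
converge there are constants `c n > 0` such that for all `j` and all maps `φ` to metric spaces the
points in infinitely many of the balls of radius `c n * h ^ (-s n)`, `n` arbitrary, around the images of
the members of `Bad j n` form a set of dimension at most `t j`. -/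
theorem core {P : Type} (Bad : ℕ → ℕ → Set P) (hc : ∀ j n, (Bad j n).Countable) (h : P → ℝ)
    (h1 : ∀ p, 1 ≤ h p) (s t : ℕ → ℝ) (ht : ∀ j, 0 < t j)
    (hsum : ∀ j n, Summable (fun p : Bad j n => (h p.1) ^ (-(s n * t j)))) :
    ∃ c : ℕ → ℝ, (∀ n, 0 < c n) ∧ ∀ (j : ℕ) (T : Type) [MetricSpace T] (φ : P → T),
      dimH {z : T | {q : Σ n, Bad j n | dist (φ q.2.1) z ≤ c q.1 * (h q.2.1) ^ (-(s q.1))}.Infinite} ≤
        ENNReal.ofReal (t j) := by
  have hpos : ∀ p, 0 < h p := fun p => lt_of_lt_of_le one_pos (h1 p)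
  set S : ℕ → ℕ → ℝ := fun j n => ∑' p : Bad j n, (h p.1) ^ (-(s n * t j)) with hS
  have hS0 : ∀ j n, 0 ≤ S j n := fun j n => tsum_nonneg fun p => Real.rpow_nonneg (hpos _).le _
  have hex : ∀ n : ℕ, ∃ c : ℝ, 0 < c ∧ ∀ j ∈ Finset.range (n + 1),
      (2 * c) ^ (t j) * S j n ≤ (1 / 2) ^ n := by
    intro n
    have hev : ∀ᶠ c in 𝓝[>] (0 : ℝ), ∀ j ∈ Finset.range (n + 1),
        (2 * c) ^ (t j) * S j n ≤ (1 / 2) ^ n := by
      rw [Filter.eventually_all_finset]
      intro j _
      have h2 : Tendsto (fun c : ℝ => (2 * c) ^ (t j) * S j n) (𝓝 0)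
          (𝓝 ((2 * 0) ^ (t j) * S j n)) := by
        refine Tendsto.mul_const _ ?_
        exact Tendsto.rpow_const (tendsto_const_nhds.mul tendsto_id) (Or.inr (ht j).le)
      rw [mul_zero, Real.zero_rpow (ht j).ne', zero_mul] at h2
      exact (h2.mono_left nhdsWithin_le_nhds).eventually (ge_mem_nhds (by positivity))
    obtain ⟨c, hc1, hc2⟩ := (hev.and self_mem_nhdsWithin).exists
    exact ⟨c, hc2, hc1⟩
  choose c hc0 hc1 using hex
  refine ⟨c, hc0, fun j T _ φ => ?_⟩
  haveI : ∀ n, Countable (Bad j n) := fun n => (hc j n).to_subtype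
  have hterm : ∀ (n : ℕ) (p : Bad j n), (2 * (c n * (h p.1) ^ (-(s n)))) ^ (t j) =
      (2 * c n) ^ (t j) * (h p.1) ^ (-(s n * t j)) := by
    intro n p
    have h2 := hc0 n
    have h3 := hpos p.1
    rw [show 2 * (c n * (h p.1) ^ (-(s n))) = (2 * c n) * (h p.1) ^ (-(s n)) by ring,
      Real.mul_rpow (by positivity) (by positivity), ← Real.rpow_mul h3.le, neg_mul]
  have hsm : Summable fun q : Σ n, Bad j n =>
      (2 * (c q.1 * (h q.2.1) ^ (-(s q.1)))) ^ (t j) := by
    rw [summable_sigma_of_nonneg (fun q => by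
      have h2 := hc0 q.1
      have h3 := hpos q.2.1
      positivity)]
    constructor
    · intro n
      refine ((hsum j n).mul_left ((2 * c n) ^ (t j))).congr fun p => ?_
      rw [hterm]
    · have hg : Summable fun n : ℕ => ((1 : ℝ) / 2) ^ n := summable_geometric_two
      refine Summable.of_norm_bounded_eventually_nat hg ?_
      filter_upwards [eventually_ge_atTop j] with n hn
      have he : ∑' y : Bad j n, (2 * (c n * (h y.1) ^ (-(s n)))) ^ (t j) =
          (2 * c n) ^ (t j) * S j n := by
        rw [hS, ← tsum_mul_left]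
        exact tsum_congr fun p => hterm n p
      simp only [he]
      rw [Real.norm_of_nonneg (mul_nonneg (Real.rpow_nonneg (by have := hc0 n; positivity) _)
        (hS0 j n))]
      exact hc1 n j (Finset.mem_range.2 (by omega))
  have h3 := Pool.Agent.R425.MK.dimH_limsup
    (fun q : Σ n, Bad j n => Metric.closedBall (φ q.2.1) (c q.1 * (h q.2.1) ^ (-(s q.1))))
    (fun q => 2 * (c q.1 * (h q.2.1) ^ (-(s q.1)))) (fun q => by
      have h2 := hc0 q.1
      have h3 := hpos q.2.1
      positivity) (fun q => by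
      refine Metric.ediam_le fun a ha b hb => ?_
      rw [Metric.mem_closedBall] at ha hb
      rw [edist_dist]
      apply ENNReal.ofReal_le_ofReal
      have := dist_triangle_right a b (φ q.2.1)
      linarith) (ht j) hsm
  refine le_trans (dimH_mono ?_) h3
  intro z hz
  simp only [Set.mem_ofPred_eq] at hz ⊢
  refine hz.mono fun q hq => ?_
  simp only [Set.mem_ofPred_eq, Metric.mem_closedBall] at hq ⊢
  rw [dist_comm]
  exact hq

end Pool.Agent.Helper93.UA
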