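import Pool.Agent.Results.MP_6e34ef_nt.UniformAbcWindows
import Pool.Agent.Results.MP_6e34ef_nt.AllDegreesAlmostAll
import Pool.Agent.Helper93.UA.Core

/-!
# The uniform abc inequality with one constant for all degrees near generic points
-/

set_option autoImplicit false

namespace Pool.Agent.Helper93.UA

open NumberField IsDedekindDomain Filter Topology MeasureTheory
open Pool.Agent.Results.MP_6e34ef_nt.FewViolators (height conductor rootDisc expo Viol)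
open Pool.Agent.Results.MP_6e34ef_nt.UniformAbcWindows (ht Exc)

abbrev Pt : Type := Pool.Agent.Results.MP_6e34ef_nt.UniformAbcWindows.Num

lemma ht_nonneg (p : Pt) : 0 ≤ ht p := by
  haveI : NumberField p.1.1 := p.1.2
  show 0 ≤ height ![p.2, 1 - p.2, -1]
  unfold height
  refine div_nonneg (add_nonneg (Finset.sum_nonneg fun w _ => mul_nonneg (Nat.cast_nonneg _) ?_)
    (finsum_nonneg fun v => ?_)) (Nat.cast_nonneg _)
  · refine Real.log_nonneg ?_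
    refine le_max_of_le_right (le_max_of_le_right ?_)
    have h : w (-1 : p.1.1) = 1 := by
      have h2 : w (-1 : p.1.1) = w 1 := w.1.map_neg 1
      rw [h2, map_one]
    simp [h]
  · refine Real.log_nonneg ?_
    refine le_max_of_le_right (le_max_of_le_right ?_)
    have h : FinitePlace.mk v (-1 : p.1.1) = 1 := by
      have h2 : FinitePlace.mk v (-1 : p.1.1) = FinitePlace.mk v 1 := (FinitePlace.mk v).1.map_neg 1
      rw [h2, map_one]
    simp [h]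

/-- the height `H(x)` -/
noncomputable def Ht (p : Pt) : ℝ := Real.exp (ht p)

lemma one_le_Ht (p : Pt) : 1 ≤ Ht p := Real.one_le_exp (ht_nonneg p)

/-- the number of violations -/
def Counts (e : ℕ → ℝ) : Prop :=
  ∀ n : ℕ, 1 ≤ n → ∀ κ c δ : ℝ, 0 < κ → 0 < δ →
    ∃ M : ℝ, ∀ B : ℝ, 1 ≤ B → (Viol n κ c B).Finite ∧
      ((Viol n κ c B).ncard : ℝ) ≤ M * B ^ ((n : ℝ) * e n / κ + δ)

lemma count {n : ℕ} {κ c M B α : ℝ} (hB : 0 < B) (hfin : (Viol n κ c B).Finite)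
    (hcard : ((Viol n κ c B).ncard : ℝ) ≤ M * B ^ α) :
    {p | p ∈ Exc n κ c ∧ Ht p ≤ B}.Finite ∧
      ({p | p ∈ Exc n κ c ∧ Ht p ≤ B}.ncard : ℝ) ≤ M * B ^ α := by
  set f : Pt → IntermediateField ℚ (AlgebraicClosure ℚ) × AlgebraicClosure ℚ :=
    fun p => (p.1.1, (p.2 : AlgebraicClosure ℚ)) with hf
  have hinj : Function.Injective f := by
    rintro ⟨⟨K, hK⟩, x⟩ ⟨⟨L, hL⟩, y⟩ h
    rw [hf, Prod.mk.injEq] at h
    obtain ⟨h1, h2⟩ := h
    dsimp only at h1 h2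
    subst h1
    have h3 : x = y := Subtype.ext h2
    subst h3
    rfl
  have himg : f '' {p | p ∈ Exc n κ c ∧ Ht p ≤ B} ⊆ Viol n κ c B := by
    rintro _ ⟨p, ⟨⟨h1, h2, h3, h4⟩, h5⟩, rfl⟩
    refine ⟨p.1.2, p.2, rfl, h1, h2, h3, ?_, h4⟩
    rw [Ht, ← Real.le_log_iff_exp_le hB] at h5
    exact h5
  have hfin2 : {p | p ∈ Exc n κ c ∧ Ht p ≤ B}.Finite :=
    Set.Finite.of_finite_image (hfin.subset himg) hinj.injOn
  refine ⟨hfin2, ?_⟩
  calc ({p | p ∈ Exc n κ c ∧ Ht p ≤ B}.ncard : ℝ)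
      = ((f '' {p | p ∈ Exc n κ c ∧ Ht p ≤ B}).ncard : ℝ) := by
        rw [Set.ncard_image_of_injective _ hinj]
    _ ≤ ((Viol n κ c B).ncard : ℝ) := by exact_mod_cast Set.ncard_le_ncard himg hfin
    _ ≤ M * B ^ α := hcard

lemma exc_countable {e : ℕ → ℝ} (he : Counts e) {n : ℕ} (hn : 1 ≤ n) {κ : ℝ} (hκ : 0 < κ) :
    (Exc n κ 0).Countable := by
  obtain ⟨M, hM⟩ := he n hn κ 0 1 hκ one_pos
  have hsub : Exc n κ 0 ⊆ ⋃ N : ℕ, {p | p ∈ Exc n κ 0 ∧ Ht p ≤ (N : ℝ) + 1} := by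
    intro p hp
    rw [Set.mem_iUnion]
    obtain ⟨N, hN⟩ := exists_nat_ge (Ht p)
    exact ⟨N, hp, by linarith⟩
  refine (Set.countable_iUnion fun N : ℕ => ?_).mono hsub
  have hN1 : (1 : ℝ) ≤ (N : ℝ) + 1 := by
    have : (0 : ℝ) ≤ N := Nat.cast_nonneg N
    linarith
  obtain ⟨h1, h2⟩ := hM ((N : ℝ) + 1) hN1
  exact (count (by linarith) h1 h2).1.countable

lemma exc_summable {e : ℕ → ℝ} (he : Counts e) (he0 : ∀ n, 0 ≤ e n) {n : ℕ} (hn : 1 ≤ n) {κ : ℝ}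
    (hκ : 0 < κ) {a : ℝ} (ha : (n : ℝ) * e n < a * κ) :
    Summable (fun p : Exc n κ 0 => (Ht p.1) ^ (-a)) := by
  have hn0 : (0 : ℝ) < n := by exact_mod_cast (by omega : 0 < n)
  have h0 : 0 ≤ (n : ℝ) * e n := mul_nonneg hn0.le (he0 n)
  have ha0 : 0 < a := (mul_pos_iff_of_pos_right hκ).1 (lt_of_le_of_lt h0 ha)
  set b : ℝ := (n : ℝ) * e n / κ with hb
  have hb0 : 0 ≤ b := div_nonneg h0 hκ.le
  have hba : b < a := by
    rw [hb, div_lt_iff₀ hκ]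
    exact ha
  obtain ⟨M, hM⟩ := he n hn κ 0 ((a - b) / 2) hκ (by linarith)
  refine Pool.Agent.R479.DA.summable_heights
    (fun p : Exc n κ 0 => Ht p.1)
    (fun p => one_le_Ht p.1) (s := b + (a - b) / 2) (p := a) (C := M)
    (by linarith) (by positivity) (fun X hX => ?_)
  obtain ⟨h1, h2⟩ := hM X hX
  obtain ⟨h3, h4⟩ := count (by linarith) h1 h2
  have himg : Subtype.val '' {p : Exc n κ 0 | Ht p.1 ≤ X} =
      {p | p ∈ Exc n κ 0 ∧ Ht p ≤ X} := by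
    ext p
    constructor
    · rintro ⟨q, hq, rfl⟩
      exact ⟨q.2, hq⟩
    · rintro ⟨h5, h6⟩
      exact ⟨⟨p, h5⟩, h6, rfl⟩
  have hinj : Set.InjOn Subtype.val {p : Exc n κ 0 | Ht p.1 ≤ X} :=
    Subtype.val_injective.injOn
  constructor
  · refine Set.Finite.of_finite_image ?_ hinj
    rw [himg]
    exact h3
  · rw [← hinj.ncard_image, himg]
    exact h4

/-- the inequality near `z` -/
def Near {T : Type} [MetricSpace T] (φ : AlgebraicClosure ℚ → T) (z : T) (c s : ℕ → ℝ)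
    (κ C : ℝ) : Prop :=
  ∀ (K : IntermediateField ℚ (AlgebraicClosure ℚ)) [NumberField K] (x : K),
    x ≠ 0 → x ≠ 1 →
    dist (φ x) z ≤ c (Module.finrank ℚ K) *
      Real.exp (height ![x, 1 - x, -1]) ^ (-(s (Module.finrank ℚ K))) →
    height ![x, 1 - x, -1] ≤ κ * (rootDisc K + conductor ![x, 1 - x, -1]) + C

/-- the members of degree `n` of the `j`th family of violations -/
def Bad (e s kp t : ℕ → ℝ) (j n : ℕ) : Set Pt :=
  {p | (1 ≤ n ∧ (n : ℝ) * e n < s n * t j * kp j) ∧ p ∈ Exc n (kp j) 0}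

lemma bad_eq {e s kp t : ℕ → ℝ} {j n : ℕ} (h : 1 ≤ n ∧ (n : ℝ) * e n < s n * t j * kp j) :
    Bad e s kp t j n = Exc n (kp j) 0 := by
  ext p
  simp only [Bad, Set.mem_ofPred_eq]
  tauto

lemma bad_empty {e s kp t : ℕ → ℝ} {j n : ℕ}
    (h : ¬ (1 ≤ n ∧ (n : ℝ) * e n < s n * t j * kp j)) : Bad e s kp t j n = ∅ := by
  ext p
  simp only [Bad, Set.mem_ofPred_eq, Set.mem_empty_iff_false]
  tauto

/-- the constant near a point which is in finitely many balls -/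
lemma near_of_finite {T : Type} [MetricSpace T] {φ : AlgebraicClosure ℚ → T} {z : T}
    {c e s kp t : ℕ → ℝ} {j : ℕ} {κ : ℝ} (hκ : 0 < κ) (hj : kp j ≤ κ)
    (hcond : ∀ n : ℕ, 1 ≤ n → (n : ℝ) * e n < s n * t j * kp j)
    (hz : {q : Σ n, Bad e s kp t j n |
      dist (φ (q.2.1.2 : AlgebraicClosure ℚ)) z ≤ c q.1 * (Ht q.2.1) ^ (-(s q.1))}.Finite) :
    ∃ C : ℝ, Near φ z c s κ C := by
  obtain ⟨C, hC⟩ := (hz.image fun q => ht q.2.1).bddAbove
  refine ⟨max C 0, fun K hK x hx0 hx1 hw => ?_⟩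
  have hn : 1 ≤ Module.finrank ℚ K := Module.finrank_pos
  have hnn := Pool.Agent.Results.MP_6e34ef_nt.UniformAbcWindows.nonneg ![x, 1 - x, -1]
  have hkk : kp j * (rootDisc K + conductor ![x, 1 - x, -1]) ≤
      κ * (rootDisc K + conductor ![x, 1 - x, -1]) :=
    mul_le_mul_of_nonneg_right hj hnn
  by_contra hcon
  push Not at hcon
  have hm0 : (0 : ℝ) ≤ max C 0 := le_max_right _ _
  have hexc : (⟨⟨K, hK⟩, x⟩ : Pt) ∈ Exc (Module.finrank ℚ K) (kp j) 0 := by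
    refine ⟨rfl, hx0, hx1, ?_⟩
    show 0 + kp j * (rootDisc K + conductor ![x, 1 - x, -1]) < height ![x, 1 - x, -1]
    linarith
  have hbad : (⟨⟨K, hK⟩, x⟩ : Pt) ∈ Bad e s kp t j (Module.finrank ℚ K) := by
    rw [bad_eq ⟨hn, hcond _ hn⟩]
    exact hexc
  have h5 : height ![x, 1 - x, -1] ≤ C :=
    hC ⟨⟨Module.finrank ℚ K, ⟨⟨⟨K, hK⟩, x⟩, hbad⟩⟩, hw, rfl⟩
  have h6 : C ≤ max C 0 := le_max_left _ _
  have h7 : 0 ≤ κ * (rootDisc K + conductor ![x, 1 - x, -1]) := mul_nonneg hκ.le hnn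
  linarith

/-- the exceptional set for one exponent -/
theorem main (e : ℕ → ℝ) (he : Counts e) (he0 : ∀ n, 0 ≤ e n) (s : ℕ → ℝ)
    (hs : ∀ n, 1 ≤ n → 0 < s n) :
    ∃ c : ℕ → ℝ, (∀ n, 0 < c n) ∧ ∀ (T : Type) [MetricSpace T] (φ : AlgebraicClosure ℚ → T)
      (D : ℝ), 0 ≤ D → (∀ n : ℕ, 1 ≤ n → (n : ℝ) * e n ≤ D * s n) → ∀ κ : ℝ, 0 < κ →
      ∃ E : Set T, dimH E ≤ ENNReal.ofReal (D / κ) ∧ ∀ z : T, z ∉ E → ∃ C : ℝ,
        Near φ z c s κ C := by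
  classical
  -- the rational parameters
  haveI : Nonempty {q : ℚ × ℚ // 0 < q.1 ∧ 0 < q.2} := ⟨⟨(1, 1), by norm_num, by norm_num⟩⟩
  obtain ⟨g, hg⟩ := exists_surjective_nat {q : ℚ × ℚ // 0 < q.1 ∧ 0 < q.2}
  obtain ⟨kp, hkp⟩ : ∃ kp : ℕ → ℝ, ∀ j, kp j = ((g j).1.1 : ℝ) := ⟨_, fun _ => rfl⟩
  obtain ⟨t, ht'⟩ : ∃ t : ℕ → ℝ, ∀ j, t j = ((g j).1.2 : ℝ) := ⟨_, fun _ => rfl⟩
  have hkp0 : ∀ j, 0 < kp j := fun j => by
    rw [hkp]
    exact_mod_cast (g j).2.1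
  have ht0 : ∀ j, 0 < t j := fun j => by
    rw [ht']
    exact_mod_cast (g j).2.2
  obtain ⟨c, hc0, hc⟩ := core (Bad e s kp t) (fun j n => by
      by_cases h : 1 ≤ n ∧ (n : ℝ) * e n < s n * t j * kp j
      · rw [bad_eq h]
        exact exc_countable he h.1 (hkp0 j)
      · rw [bad_empty h]
        exact Set.countable_empty) Ht one_le_Ht s t ht0 (fun j n => by
      by_cases h : 1 ≤ n ∧ (n : ℝ) * e n < s n * t j * kp j
      · rw [bad_eq h]
        exact exc_summable he he0 h.1 (hkp0 j) h.2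
      · rw [bad_empty h]
        exact summable_empty)
  refine ⟨c, hc0, fun T _ φ D hD hDs κ hκ => ?_⟩
  refine ⟨⋂ j ∈ {j | kp j ≤ κ ∧ D < t j * kp j}, {z : T | {q : Σ n, Bad e s kp t j n |
    dist (φ (q.2.1.2 : AlgebraicClosure ℚ)) z ≤ c q.1 * (Ht q.2.1) ^ (-(s q.1))}.Infinite},
    ?_, fun z hz => ?_⟩
  · apply ENNReal.le_of_forall_pos_le_add
    intro ε hε _
    have hε' : (0 : ℝ) < ε := by exact_mod_cast hε
    rw [← ENNReal.ofReal_coe_nnreal (p := ε), ← ENNReal.ofReal_add (by positivity) hε'.le]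
    obtain ⟨q2, hq2, hq2'⟩ := exists_rat_btwn (show D / κ < D / κ + ε by linarith)
    have hDκ : 0 ≤ D / κ := div_nonneg hD hκ.le
    have hq20 : (0 : ℝ) < q2 := lt_of_le_of_lt hDκ hq2
    have hlt : D / q2 < κ := by
      rw [div_lt_iff₀ hq20]
      rw [div_lt_iff₀ hκ] at hq2
      linarith
    obtain ⟨q1, hq1, hq1'⟩ := exists_rat_btwn hlt
    have hq10 : (0 : ℝ) < q1 := lt_of_le_of_lt (div_nonneg hD hq20.le) hq1
    obtain ⟨j, hj⟩ := hg ⟨(q1, q2), by exact_mod_cast hq10, by exact_mod_cast hq20⟩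
    have hk : kp j = q1 := by rw [hkp, hj]
    have ht1 : t j = q2 := by rw [ht', hj]
    have hjJ : j ∈ {j | kp j ≤ κ ∧ D < t j * kp j} := by
      refine ⟨by rw [hk]; exact hq1'.le, ?_⟩
      rw [hk, ht1]
      rw [div_lt_iff₀ hq20] at hq1
      linarith
    refine (dimH_mono (Set.biInter_subset_of_mem hjJ)).trans ((hc j T
      (fun p => φ (p.2 : AlgebraicClosure ℚ))).trans
      (ENNReal.ofReal_le_ofReal (by rw [ht1]; exact hq2'.le)))
  · simp only [Set.mem_iInter, not_forall] at hz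
    obtain ⟨j, hjJ, hzj⟩ := hz
    simp only [Set.mem_ofPred_eq, Set.not_infinite] at hzj
    refine near_of_finite hκ hjJ.1 (fun n hn => ?_) hzj
    refine lt_of_le_of_lt (hDs n hn) ?_
    have h1 := mul_lt_mul_of_pos_right hjJ.2 (hs n hn)
    linarith

/-- the exceptional set of dimension zero -/
theorem main_zero {T : Type} [MetricSpace T] {φ : AlgebraicClosure ℚ → T} {c s : ℕ → ℝ} {D : ℝ}
    (h : ∀ κ : ℝ, 0 < κ → ∃ E : Set T, dimH E ≤ ENNReal.ofReal (D / κ) ∧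
      ∀ z : T, z ∉ E → ∃ C : ℝ, Near φ z c s κ C) :
    ∃ E : Set T, dimH E = 0 ∧ ∀ z : T, z ∉ E → ∃ κ C : ℝ, Near φ z c s κ C := by
  have h' : ∀ m : ℕ, ∃ E : Set T, dimH E ≤ ENNReal.ofReal (D / ((m : ℝ) + 1)) ∧
      ∀ z : T, z ∉ E → ∃ C : ℝ, Near φ z c s ((m : ℝ) + 1) C := fun m => h _ (by positivity)
  choose E h1 h2 using h'
  refine ⟨⋂ m, E m, ?_, fun z hz => ?_⟩
  · rw [← nonpos_iff_eq_zero]
    have hl : Tendsto (fun m : ℕ => ENNReal.ofReal (D / ((m : ℝ) + 1))) atTop (𝓝 0) := by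
      rw [← ENNReal.ofReal_zero]
      apply ENNReal.tendsto_ofReal
      have h5 := (tendsto_one_div_add_atTop_nhds_zero_nat (𝕜 := ℝ)).const_mul D
      rw [mul_zero] at h5
      refine h5.congr fun m => ?_
      ring
    exact ge_of_tendsto' hl fun m => (dimH_mono (Set.iInter_subset _ m)).trans (h1 m)
  · rw [Set.mem_iInter] at hz
    push Not at hz
    obtain ⟨m, hm⟩ := hz
    obtain ⟨C, hC⟩ := h2 m z hm
    exact ⟨_, C, hC⟩

end Pool.Agent.Helper93.UA
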